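import Pool.Agent.H30.SL.Stm

set_option autoImplicit false

namespace Pool.Agent.H33.SL

open Finset Pool.Agent.H30.SL

attribute [local instance 100] LieRing.ofAssociativeRing

/-- the lists over `S` with the colours `l` -/
def Fs {D : ℕ} (w : Fin D → ℕ) (S : Finset (Fin D)) : List ℕ → Finset (List (Fin D))
  | [] => {[]}
  | i :: l => ((S.filter (fun j => w j = i)) ×ˢ Fs w S l).image (fun q => q.1 :: q.2)

theorem mem_Fs {D : ℕ} (w : Fin D → ℕ) (S : Finset (Fin D)) (l : List ℕ) (s : List (Fin D)) :
    s ∈ Fs w S l ↔ s.map w = l ∧ ∀ j ∈ s, j ∈ S := by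
  induction l generalizing s with
  | nil =>
    simp only [Fs, mem_singleton, List.map_eq_nil_iff]
    constructor
    · rintro rfl; simp
    · exact fun h => h.1
  | cons i l ih =>
    simp only [Fs, mem_image, mem_product, mem_filter, Prod.exists]
    constructor
    · rintro ⟨a, b, ⟨⟨h1, h2⟩, h3⟩, rfl⟩
      rw [ih] at h3
      simp only [List.map_cons, h2, h3.1, List.mem_cons, forall_eq_or_imp, true_and]
      exact ⟨h1, h3.2⟩
    · rintro ⟨h1, h2⟩
      cases s with
      | nil => simp at h1
      | cons a b =>
        simp only [List.map_cons, List.cons.injEq] at h1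
        exact ⟨a, b, ⟨⟨h2 a (by simp), h1.1⟩, (ih b).2 ⟨h1.2, fun j hj => h2 j (by simp [hj])⟩⟩, rfl⟩

theorem sum_cons {D : ℕ} {M : Type} [AddCommMonoid M] (w : Fin D → ℕ) (S : Finset (Fin D)) (i : ℕ)
    (l : List ℕ) (g : List (Fin D) → M) :
    ∑ s ∈ Fs w S (i :: l), g s = ∑ j ∈ S.filter (fun j => w j = i), ∑ s ∈ Fs w S l, g (j :: s) := by
  simp only [Fs]
  rw [sum_image, sum_product]
  rintro ⟨a, b⟩ _ ⟨c, d⟩ _ h
  simp only [List.cons.injEq] at h
  exact Prod.ext h.1 h.2

theorem sum_app {D : ℕ} {M : Type} [AddCommMonoid M] (w : Fin D → ℕ) (S : Finset (Fin D))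
    (l l' : List ℕ) (g : List (Fin D) → M) :
    ∑ s ∈ Fs w S (l ++ l'), g s = ∑ s ∈ Fs w S l, ∑ s' ∈ Fs w S l', g (s ++ s') := by
  induction l generalizing g with
  | nil => simp [Fs]
  | cons i l ih =>
    rw [List.cons_append, sum_cons, sum_cons]
    refine sum_congr rfl (fun j _ => ?_)
    rw [ih]
    rfl

theorem expand (K : Type) [Field K] (D : ℕ) {l : List ℕ} {T : FreeLieAlgebra K ℕ} (h : MW K l T) :
    ∃ E : List (Fin D) → FreeLieAlgebra K ℕ,
      (∀ s, s.length = l.length → MW K (s.map Fin.val) (E s)) ∧
      (∀ (w : Fin D → ℕ) (S : Finset (Fin D)), sub K D w S T = ∑ s ∈ Fs w S l, E s) ∧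
      (∀ (w : Fin D → ℕ) (s : List (Fin D)), s.map w = l → back K D w (E s) = T) := by
  induction h with
  | of i =>
    refine ⟨fun s => match s with | [] => 0 | j :: _ => FreeLieAlgebra.of K (j : ℕ), ?_, ?_, ?_⟩
    · intro s hs
      match s, hs with
      | [j], _ => exact MW.of _
    · intro w S
      rw [sum_cons]
      simp only [Fs, sum_singleton]
      unfold sub
      rw [FreeLieAlgebra.lift_of_apply]
    · intro w s hs
      match s, hs with
      | [j], hs =>
        simp only [List.map_cons, List.map_nil, List.cons.injEq, and_true] at hs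
        unfold back
        simp only [FreeLieAlgebra.lift_of_apply]
        rw [dif_pos j.2]
        exact congrArg _ hs
  | @lie s1 s2 x y h1 h2 ih1 ih2 =>
    obtain ⟨E1, a1, b1, c1⟩ := ih1
    obtain ⟨E2, a2, b2, c2⟩ := ih2
    refine ⟨fun s => ⁅E1 (s.take s1.length), E2 (s.drop s1.length)⁆, ?_, ?_, ?_⟩
    · intro s hs
      have e : s.map Fin.val = (s.take s1.length).map Fin.val ++
          (s.drop s1.length).map Fin.val := by
        rw [← List.map_append, List.take_append_drop]
      rw [e]
      rw [List.length_append] at hs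
      exact MW.lie (a1 _ (by rw [List.length_take]; omega)) (a2 _ (by rw [List.length_drop]; omega))
    · intro w S
      rw [sum_app, LieHom.map_lie, b1, b2, sum_lie]
      refine sum_congr rfl (fun s hs => ?_)
      rw [lie_sum]
      refine sum_congr rfl (fun s' hs' => ?_)
      have hl : s.length = s1.length := by
        rw [← ((mem_Fs _ _ _ _).1 hs).1, List.length_map]
      rw [List.take_left' hl, List.drop_left' hl]
    · intro w s hs
      have hl : s.length = s1.length + s2.length := by
        rw [← List.length_map (f := w), hs, List.length_append]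
      rw [LieHom.map_lie, c1 w _ ?_, c2 w _ ?_]
      · rw [List.map_drop, hs, List.drop_left]
      · rw [List.map_take, hs, List.take_left]

theorem incl (K : Type) [Field K] (D : ℕ) (R : Finset (Fin D)) :
    ∑ S : Finset (Fin D), (if R ⊆ S then (-1 : K) ^ (D - S.card) else 0) =
      if R = univ then 1 else 0 := by
  have h1 : ∑ S : Finset (Fin D), (if R ⊆ S then (-1 : K) ^ (D - S.card) else 0) =
      ∑ S : Finset (Fin D), (if S ⊆ Rᶜ then (-1 : K) ^ S.card else 0) := by
    refine Fintype.sum_bijective (fun S => Sᶜ) compl_involutive.bijective _ _ (fun S => ?_)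
    rw [card_compl, Fintype.card_fin]
    congr 1
    rw [compl_subset_compl]
  have h2 : ∑ S : Finset (Fin D), (if S ⊆ Rᶜ then (-1 : K) ^ S.card else 0) =
      ∑ S ∈ (Rᶜ).powerset, (-1 : K) ^ S.card := by
    rw [← sum_filter]
    refine sum_congr ?_ (fun _ _ => rfl)
    ext S
    simp
  have h3 : ((∑ S ∈ (Rᶜ).powerset, (-1 : ℤ) ^ S.card : ℤ) : K) =
      ∑ S ∈ (Rᶜ).powerset, (-1 : K) ^ S.card := by push_cast; rfl
  rw [h1, h2, ← h3, sum_powerset_neg_one_pow_card]
  by_cases hR : R = univ
  · simp [hR]
  · have : Rᶜ ≠ ∅ := by simpa using hR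
    simp [hR, this]

theorem Ph_eq (K : Type) [Field K] (D : ℕ) (w : Fin D → ℕ) (l : List ℕ) (T : FreeLieAlgebra K ℕ)
    (E : List (Fin D) → FreeLieAlgebra K ℕ)
    (hE : ∀ S : Finset (Fin D), sub K D w S T = ∑ s ∈ Fs w S l, E s) :
    Ph K D w T = ∑ s ∈ (Fs w univ l).filter (fun s => s.toFinset = univ), E s := by
  unfold Ph
  have h1 : ∀ S : Finset (Fin D), sub K D w S T =
      ∑ s ∈ Fs w univ l, if s.toFinset ⊆ S then E s else 0 := by
    intro S
    rw [hE, ← sum_filter]
    refine sum_congr ?_ (fun _ _ => rfl)
    ext s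
    simp only [mem_Fs, mem_filter, mem_univ, implies_true, and_true]
    refine and_congr_right (fun _ => ?_)
    simp [Finset.subset_iff]
  simp only [h1, smul_sum]
  rw [sum_comm, sum_filter]
  refine sum_congr rfl (fun s _ => ?_)
  have h2 := incl K D s.toFinset
  calc ∑ S : Finset (Fin D), (-1 : K) ^ (D - S.card) • (if s.toFinset ⊆ S then E s else 0)
      = (∑ S : Finset (Fin D), (if s.toFinset ⊆ S then (-1 : K) ^ (D - S.card) else 0)) • E s := by
        rw [sum_smul]
        refine sum_congr rfl (fun S _ => ?_)
        split_ifs <;> simp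
    _ = _ := by
        rw [h2]
        split_ifs <;> simp

theorem nodup_of {D : ℕ} (s : List (Fin D)) (h : s.toFinset = univ) (hl : s.length = D) :
    s.Nodup := by
  have h1 : s.toFinset.card = s.length := by rw [h, hl]; simp
  exact Multiset.coe_nodup.1
    ((Multiset.toFinset_card_eq_card_iff_nodup (m := (s : Multiset (Fin D)))).1 h1)

theorem t_POL : S_POL := by
  intro K _ D l T hT
  obtain ⟨E, h1, h2, h3⟩ := expand K D hT
  refine ⟨?_, ?_, ?_⟩
  · intro hl w
    rw [Ph_eq K D w l T E (h2 w)]
    refine sum_eq_zero (fun s hs => ?_)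
    exfalso
    rw [mem_filter, mem_Fs] at hs
    have e1 : s.toFinset.card = D := by rw [hs.2]; simp
    have e2 := List.toFinset_card_le s
    have e3 : s.length = l.length := by rw [← hs.1.1, List.length_map]
    omega
  · intro hl w
    rw [Ph_eq K D w l T E (h2 w)]
    refine Submodule.sum_mem _ (fun s hs => Submodule.subset_span ?_)
    rw [mem_filter, mem_Fs] at hs
    have e3 : s.length = l.length := by rw [← hs.1.1, List.length_map]
    refine ⟨s.map Fin.val, ?_, h1 s e3⟩
    have e4 := nodup_of s hs.2 (by omega)
    rw [List.perm_ext_iff_of_nodup (e4.map Fin.val_injective) List.nodup_range]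
    intro a
    simp only [List.mem_map, List.mem_range]
    constructor
    · rintro ⟨b, _, rfl⟩
      exact b.2
    · intro ha
      exact ⟨⟨a, ha⟩, by rw [← List.mem_toFinset, hs.2]; simp, rfl⟩
  · intro hl N hN
    have k1 : ∀ w : Fin D → Fin N, back K D (fun j => (w j : ℕ)) (Ph K D (fun j => (w j : ℕ)) T) =
        ∑ s ∈ (List.finRange D).permutations.toFinset,
          if s.map (fun j => (w j : ℕ)) = l then T else 0 := by
      intro w
      rw [Ph_eq K D _ l T E (h2 _), map_sum, ← sum_filter]
      refine sum_congr ?_ (fun s hs => ?_)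
      · ext s
        simp only [mem_filter, mem_Fs, List.mem_toFinset, List.mem_permutations, mem_univ,
          implies_true, and_true]
        rw [and_comm]
        refine and_congr_left (fun hs => ?_)
        have e3 : s.length = l.length := by rw [← hs, List.length_map]
        constructor
        · intro h
          rw [List.perm_ext_iff_of_nodup (nodup_of s h (by omega)) (List.nodup_finRange D)]
          intro a
          rw [← List.mem_toFinset, h]
          simp
        · intro h
          ext a
          simp [h.mem_iff]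
      · rw [mem_filter] at hs
        exact h3 _ s hs.2
    rw [sum_congr rfl (fun w _ => k1 w), sum_comm]
    have k2 : ∀ s ∈ (List.finRange D).permutations.toFinset,
        ∑ w : Fin D → Fin N, (if s.map (fun j => (w j : ℕ)) = l then T else 0) = T := by
      intro s hs
      rw [List.mem_toFinset, List.mem_permutations] at hs
      have hnd : s.Nodup := hs.nodup_iff.2 (List.nodup_finRange D)
      have hlen : s.length = D := by rw [hs.length_eq, List.length_finRange]
      have hmem : ∀ j, j ∈ s := fun j => by rw [hs.mem_iff]; exact List.mem_finRange j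
      have hid : ∀ j, s.idxOf j < l.length := fun j => by
        have := List.idxOf_lt_length_iff.2 (hmem j)
        omega
      have hw : ∃ w0 : Fin D → Fin N, s.map (fun j => (w0 j : ℕ)) = l := by
        refine ⟨fun j => ⟨l[s.idxOf j]'(hid j), hN _ (List.getElem_mem _)⟩, ?_⟩
        apply List.ext_getElem
        · rw [List.length_map, hlen, hl]
        · intro i h1 h2
          simp only [List.getElem_map]
          congr 1
          exact hnd.idxOf_getElem i _
      obtain ⟨w0, hw0⟩ := hw
      rw [sum_eq_single w0]
      · rw [if_pos hw0]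
      · intro w _ hne
        rw [if_neg]
        intro h
        apply hne
        ext j
        have := hw0.trans h.symm
        exact (List.map_inj_left.1 this j (hmem j)).symm
      · intro h
        exact absurd (mem_univ _) h
    rw [sum_congr rfl k2, sum_const, List.toFinset_card_of_nodup
      (List.nodup_permutations _ (List.nodup_finRange D)), List.length_permutations,
      List.length_finRange, Nat.cast_smul_eq_nsmul]

end Pool.Agent.H33.SL
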